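import Pool.Agent.H69.GN.Stm2
import Pool.Agent.H55.GN.EXI

/-! # Crew GN, part PRM -/

set_option autoImplicit false

namespace Pool.Agent.H64.GN

open Finset Pool.Agent.H69.GN

theorem prm_aux (rel : ℕ → ℕ → Prop) (m : ℕ) : ∃ p : ℕ → ℕ, ∀ j < m, (p j).Prime ∧ 3 ≤ p j ∧
    ∀ i < j, p i < p j ∧ (p i ∣ p j - 1 ↔ rel i j) := by
  classical
  induction m with
  | zero => exact ⟨fun _ => 0, fun j hj => absurd hj (Nat.not_lt_zero j)⟩
  | succ m ih =>
    obtain ⟨p, hp⟩ := ih
    obtain ⟨t, htp, ht3, hgt, hdiv⟩ := Pool.Agent.H55.GN.fresh_prime ((range m).image p)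
      (by
        intro q hq
        obtain ⟨i, hi, rfl⟩ := Finset.mem_image.1 hq
        exact ⟨(hp i (Finset.mem_range.1 hi)).1, (hp i (Finset.mem_range.1 hi)).2.1⟩)
      (fun q => ∃ i < m, p i = q ∧ rel i m)
    have hmem : ∀ i < m, p i ∈ (range m).image p := fun i hi =>
      Finset.mem_image.2 ⟨i, Finset.mem_range.2 hi, rfl⟩
    have hinj : ∀ i < m, ∀ j < m, p i = p j → i = j := by
      intro i hi j hj h
      rcases lt_trichotomy i j with h1 | h1 | h1
      · have := ((hp j hj).2.2 i h1).1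
        omega
      · exact h1
      · have := ((hp i hi).2.2 j h1).1
        omega
    refine ⟨fun j => if j = m then t else p j, fun j hj => ?_⟩
    by_cases hjm : j = m
    · subst hjm
      simp only [if_true]
      refine ⟨htp, ht3, fun i hi => ?_⟩
      have hne : i ≠ j := hi.ne
      simp only [hne, if_false]
      refine ⟨hgt _ (hmem i hi), ?_⟩
      rw [hdiv _ (hmem i hi)]
      constructor
      · rintro ⟨i', hi', he, hr⟩
        rw [hinj i' hi' i hi he] at hr
        exact hr
      · intro hr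
        exact ⟨i, hi, rfl, hr⟩
    · have hj' : j < m := by omega
      simp only [hjm, if_false]
      refine ⟨(hp j hj').1, (hp j hj').2.1, fun i hi => ?_⟩
      have hne : i ≠ m := by omega
      simp only [hne, if_false]
      exact (hp j hj').2.2 i hi

theorem t_PRM : S_PRM := by
  intro k par hpar
  obtain ⟨p, hp⟩ := prm_aux (fun i j => ∃ hi : i < k, j = (par ⟨i, hi⟩).val) (k + 1)
  refine ⟨fun i => p i.val, fun i => ⟨(hp i.val i.isLt).1, (hp i.val i.isLt).2.1⟩, ?_, ?_⟩
  · intro i j hij
    exact ((hp j.val j.isLt).2.2 i.val hij).1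
  · intro i j hij
    have h := ((hp j.val j.isLt).2.2 i.val hij).2
    show p i.val ∣ p j.val - 1 ↔ j = par i
    rw [h]
    constructor
    · rintro ⟨hi, he⟩
      exact Fin.ext he
    · intro he
      exact ⟨i.isLt, by rw [he]⟩

end Pool.Agent.H64.GN
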